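import Pool.Agent.H550R2.Neg.TreeUp

set_option autoImplicit false
set_option linter.unusedSectionVars false

/-! Branch-and-bound with symmetric semidefinite bounds for gap 3-SAT needs exponential size. -/

namespace Pool.Agent.Results.MP_87d05f_lc.BranchAndBoundSDP

open Pool.Agent.H550R2.Neg
open Pool.Agent.H30R2.NS (Clause Satisfies FarFromSat Small)

/-- A branch-and-bound tree for 3-CNF formulas over `n` variables branches on variables (both
values are explored) and runs semidefinite programs on the formula, each of them symmetric under
the negations of all variables on which the tree has not yet branched; the next variable or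
program may depend on all values and answers before. If the leaves that contain a satisfying
assignment are never pruned and all leaves are pruned when every assignment falsifies at least
the fraction `δ < 1/8` of the clauses (formulas with at most `C n` clauses), then the number of
leaves plus the sum of the orders of the programs is at least `2 ^ (n / C)`. A tree of size
`2 ^ (n + 1)` is exact on all formulas. -/
theorem result :
    (∀ δ : ℝ, 0 < δ → δ < 1 / 8 → ∃ C : ℕ, 0 < C ∧ ∀ (n : ℕ) (tr : Tree n), tr.Sym ∅ →
      (∀ Φ ∈ Small 3 (Fin n) (C * n), ∀ x, (∀ c ∈ Φ, Satisfies x c) → tr.run Φ x = true) →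
      (∀ Φ ∈ Small 3 (Fin n) (C * n), FarFromSat δ Φ → ∀ x, tr.run Φ x = false) →
      2 ^ (n / C) ≤ tr.size) ∧
    (∀ n : ℕ, ∃ tr : Tree n, tr.Sym ∅ ∧ tr.size = 2 ^ (n + 1) ∧
      ∀ Φ x, tr.run Φ x = true ↔ ∀ c ∈ Φ, Satisfies x c) :=
  ⟨bnb, bnb_upper⟩

end Pool.Agent.Results.MP_87d05f_lc.BranchAndBoundSDP
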