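import Pool.Agent.H560R2.Rob10

/-!
The Gap-ETH with a constant gap, for randomised algorithms in models with few negations.

For all `N`, `t` and `h ≥ 1` there is a set `G` of at most `2 N` clauses over `N` variables such
that each random algorithm (with negation parameter at most `t`) that distinguishes the satisfiable
subsets of `G` from the subsets of which each assignment falsifies at least the fraction `1 / (c h)`
of the clauses needs size `2 ^ (N / (c h 2 ^ (36 (t + 1) / h)))`. The models are arbitrary functions
of span programs with few negative labels, formulas with few arbitrary gates, and circuits of small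
depth with few arbitrary gates.

For `h = 1` the gap is an absolute constant and the bound is `2 ^ (N / c' ^ (t + 1))`, so it is
`2 ^ (ε N)` for constant `t` and `2 ^ (N ^ (1 - δ'))` for `t ≤ δ log N`; for `h = t + 1` the gap is
`1 / (c (t + 1))` and the bound is `2 ^ (N / (c' (t + 1)))`.

The proof: a random chain of satisfiable formulas is built from blocks on disjoint variables, whose
sizes double after `h` blocks. So the block that is used at a step of the chain contains at least
the fraction `1 / (c h)` of all clauses that have been selected before.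
-/

namespace Pool.Agent.Results.MP_87d05f_lc.GapNegationTradeoff

open Finset

/-- A clause over `N` variables: three literals; the literal `(v, c)` says that the variable `v` has
the value `c`. -/
abbrev Clause (N : ℕ) : Type := Fin 3 → Fin N × Bool

/-- The 3-CNF that consists of the clauses `G i` with `x i = true` is satisfiable. -/
def Satisfiable {N m : ℕ} (G : Fin m → Clause N) (x : Fin m → Bool) : Prop :=
  ∃ a : Fin N → Bool, ∀ i, x i = true → ∃ l, a (G i l).1 = (G i l).2

/-- The 3-CNF that consists of the clauses `G i` with `x i = true` has at least one clause, and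
every assignment falsifies at least the fraction `1 / e` of its clauses. -/
def Far {N m : ℕ} (G : Fin m → Clause N) (e : ℕ) (x : Fin m → Bool) : Prop :=
  (∃ i, x i = true) ∧ ∀ a : Fin N → Bool, (univ.filter (fun i => x i = true)).card ≤
    e * (univ.filter (fun i => x i = true ∧ ∀ l, a (G i l).1 ≠ (G i l).2)).card

open Classical in
/-- The fraction of the elements of `Λ` that have the property `A`. -/
noncomputable def rate {Λ : Type} [Fintype Λ] (A : Λ → Prop) : ℚ :=
  ((univ.filter A).card : ℚ) / Fintype.card Λ

/-- Span programs: the row `row j` is available on the input `x` if the bit `(label j).1` of `x` is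
equal to `(label j).2`. -/
structure SpanProgram (K : Type) [Field K] (V : Type) where
  size : ℕ
  dim : ℕ
  label : Fin size → V × Bool
  row : Fin size → (Fin dim → K)
  target : Fin dim → K

/-- The program accepts `x` if the target is a linear combination of the available rows. -/
def SpanProgram.Accepts {K : Type} [Field K] {V : Type} (P : SpanProgram K V) (x : V → Bool) :
    Prop :=
  P.target ∈ Submodule.span K (P.row '' {j | x (P.label j).1 = (P.label j).2})

/-- Formulas: input bits, AND, OR, and arbitrary gates `any w op φ` that apply an arbitrary Boolean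
function `op` to `w` formulas (for instance NOT gates, with `w = 1`). -/
inductive Formula (V : Type) : Type
  | var (v : V) : Formula V
  | and (φ ψ : Formula V) : Formula V
  | or (φ ψ : Formula V) : Formula V
  | any (w : ℕ) (op : (Fin w → Bool) → Bool) (φ : Fin w → Formula V) : Formula V

/-- The value. -/
def Formula.eval {V : Type} : Formula V → (V → Bool) → Bool
  | .var v, x => x v
  | .and φ ψ, x => φ.eval x && ψ.eval x
  | .or φ ψ, x => φ.eval x || ψ.eval x
  | .any _ op φ, x => op (fun i => (φ i).eval x)

/-- The size: the number of leaves. -/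
def Formula.leaves {V : Type} : Formula V → ℕ
  | .var _ => 1
  | .and φ ψ => φ.leaves + ψ.leaves
  | .or φ ψ => φ.leaves + ψ.leaves
  | .any _ _ φ => ∑ i, (φ i).leaves

/-- The total fan-in of the arbitrary gates, in particular the number of NOT gates if all of them
are NOT gates. -/
def Formula.free {V : Type} : Formula V → ℕ
  | .var _ => 0
  | .and φ ψ => φ.free + ψ.free
  | .or φ ψ => φ.free + ψ.free
  | .any w _ φ => w + ∑ i, (φ i).free

/-- Circuits with input bits `V` and gates `0, ..., s - 1`. Gate `i` has the `w i` inputs `a i j`,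
each an input bit or an earlier gate, and computes the function `op i`. The gates outside `T` are
monotone with at most two inputs (AND, OR); those in `T` are arbitrary. The depth of a gate is at
least `1` and larger than the depth of the gates that enter it. -/
structure Circuit (V : Type) where
  s : ℕ
  T : Finset (Fin s)
  w : Fin s → ℕ
  a : (i : Fin s) → Fin (w i) → V ⊕ Fin s
  op : (i : Fin s) → (Fin (w i) → Bool) → Bool
  val : (V → Bool) → Fin s → Bool
  depth : Fin s → ℕ
  out : Fin s
  depth_pos : ∀ i, 1 ≤ depth i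
  earlier : ∀ i j k, a i j = Sum.inr k → k < i ∧ depth k < depth i
  mono : ∀ i ∉ T, w i ≤ 2 ∧ Monotone (op i)
  spec : ∀ x i, val x i = op i (fun j => Sum.elim x (val x) (a i j))

/-- `A` has an algorithm of size at most `S` with negation parameter at most `t`: it is accepted by
a span program with positive labels; or it is a function of `r` span programs over one field, whose
negative labels belong to bits in a set `Z`, `(r + 1) (|Z| + 1) ≤ t + 1`; or by a formula in which
the total fan-in of the arbitrary gates is at most `t`; or by a circuit of some depth `D` with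
`2 ^ D (t + 1) ≤ S`, for which the product of `w i + 1` over the arbitrary gates is at most
`t + 1`. -/
def Model (t S : ℕ) {V : Type} (A : (V → Bool) → Prop) : Prop :=
  (∃ (K : Type) (_ : Field K), (2 : K) ≠ 0 ∧ ∃ P : SpanProgram K V,
    (∀ j, (P.label j).2 = true) ∧ P.size ≤ S ∧ ∀ x, A x ↔ P.Accepts x) ∨
  (∃ (K : Type) (_ : Field K), (2 : K) ≠ 0 ∧ ∃ (r : ℕ) (P : Fin r → SpanProgram K V)
    (Z : Finset V) (Φ : (Fin r → Prop) → Prop),
    (∀ k j, ((P k).label j).2 = false → ((P k).label j).1 ∈ Z) ∧
    (r + 1) * (Z.card + 1) ≤ t + 1 ∧ Z.card + ∑ k, (P k).size ≤ S ∧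
    ∀ x, A x ↔ Φ (fun k => (P k).Accepts x)) ∨
  (∃ φ : Formula V, φ.free ≤ t ∧ φ.leaves ≤ S ∧ ∀ x, A x ↔ φ.eval x = true) ∨
  (∃ (C : Circuit V) (D : ℕ), (∀ i, C.depth i ≤ D) ∧ ∏ i ∈ C.T, (C.w i + 1) ≤ t + 1 ∧
    2 ^ D * (t + 1) ≤ S ∧ ∀ x, A x ↔ C.val x C.out = true)

lemma model_probe {t S : ℕ} {I : Type} (A : (I → Bool) → Prop) (h : Model t S A) :
    ∃ out : (I → Bool) → Bool, (∀ x, A x ↔ out x = true) ∧
      ∃ (K : Type) (_ : Field K), (2 : K) ≠ 0 ∧
        Pool.Agent.H560R2.Probe K (6 * t) (2 * S) out := by
  classical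
  rcases h with ⟨K, _, h2, Q, h3, h4, h5⟩ | ⟨K, _, h2, r, Q, Z, Φ, h3, h4, h5, h6⟩ |
    ⟨φ, h1, h2, h3⟩ | ⟨C, D, h1, h2, h3, h4⟩
  · exact ⟨fun x => decide (Q.Accepts x), fun x => by rw [h5, decide_eq_true_iff], K, inferInstance,
      h2, (Pool.Agent.H560R2.probe_span Q.size Q.dim Q.label h3 Q.row Q.target _
      (fun x => decide_eq_true_iff)).weak (Nat.zero_le _) (by omega)⟩
  · exact ⟨fun x => decide (Φ (fun k => (Q k).Accepts x)),
      fun x => by rw [h6, decide_eq_true_iff], K, inferInstance, h2,
      (Pool.Agent.H560R2.probe_spans Z (fun k => (Q k).size)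
      (fun k => (Q k).dim) (fun k => (Q k).label) h3 (fun k => (Q k).row)
      (fun k => (Q k).target) Φ _ (fun x => decide_eq_true_iff)).weak (by omega) (by omega)⟩
  · have conv : ∀ ψ : Formula I, ∃ χ : Pool.Agent.H560R2.GF I,
        (∀ x, χ.eval x = ψ.eval x) ∧ χ.leaves = ψ.leaves ∧ χ.free = ψ.free := by
      intro ψ
      induction ψ with
      | var v => exact ⟨.var v, fun _ => rfl, rfl, rfl⟩
      | and a b iha ihb =>
        obtain ⟨a', a1, a2, a3⟩ := iha
        obtain ⟨b', b1, b2, b3⟩ := ihb
        refine ⟨.and a' b', fun x => ?_, ?_, ?_⟩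
        · simp only [Pool.Agent.H560R2.GF.eval, Formula.eval, a1, b1]
        · simp only [Pool.Agent.H560R2.GF.leaves, Formula.leaves, a2, b2]
        · simp only [Pool.Agent.H560R2.GF.free, Formula.free, a3, b3]
      | or a b iha ihb =>
        obtain ⟨a', a1, a2, a3⟩ := iha
        obtain ⟨b', b1, b2, b3⟩ := ihb
        refine ⟨.or a' b', fun x => ?_, ?_, ?_⟩
        · simp only [Pool.Agent.H560R2.GF.eval, Formula.eval, a1, b1]
        · simp only [Pool.Agent.H560R2.GF.leaves, Formula.leaves, a2, b2]
        · simp only [Pool.Agent.H560R2.GF.free, Formula.free, a3, b3]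
      | any w op a ih =>
        choose a' a1 a2 a3 using ih
        refine ⟨.any w op a', fun x => ?_, ?_, ?_⟩
        · simp only [Pool.Agent.H560R2.GF.eval, Formula.eval, a1]
        · simp only [Pool.Agent.H560R2.GF.leaves, Formula.leaves, a2]
        · simp only [Pool.Agent.H560R2.GF.free, Formula.free, a3]
    obtain ⟨χ, c1, c2, c3⟩ := conv φ
    exact ⟨χ.eval, fun x => by rw [h3, c1], ℚ, inferInstance, two_ne_zero,
      (Pool.Agent.H560R2.probe_formula χ).weak (by omega) (by omega)⟩
  · refine ⟨fun x => C.val x C.out, h4, ℚ, inferInstance, two_ne_zero,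
      (Pool.Agent.H560R2.probe_circuit C.depth_pos C.earlier C.mono h1 C.val
        C.spec C.out t h2).weak (by omega) ?_⟩
    calc 2 ^ D * (2 * (t + 1)) = 2 * (2 ^ D * (t + 1)) := by ring
      _ ≤ 2 * S := Nat.mul_le_mul_left _ h3

/-- There is a constant `c` such that for all `N`, `t` and `h ≥ 1` there is a set `G` of `m ≤ 2 N`
clauses with three literals over `N` variables for which the following holds. If a random algorithm
`A r` of size at most `S` with negation parameter at most `t` accepts every satisfiable subset of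
`G` with probability at most `1 / 3`, and with probability at least `2 / 3` every nonempty subset of
`G` of which each assignment falsifies at least the fraction `1 / (c h)`, then
`N ≤ c h 2 ^ (36 ⌊(t + 1) / h⌋) (log S + 1)`. -/
theorem result : ∃ c : ℕ, ∀ N t h : ℕ, 0 < h → ∃ (m : ℕ) (G : Fin m → Clause N),
    m ≤ 2 * N ∧ Function.Injective G ∧
    ∀ (S : ℕ) (R : Type) [Fintype R] [Nonempty R] (A : R → (Fin m → Bool) → Prop),
      (∀ r, Model t S (A r)) →
      (∀ x, Satisfiable G x → rate (fun r => A r x) ≤ 1 / 3) →
      (∀ x, Far G (c * h) x → 2 / 3 ≤ rate (fun r => A r x)) →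
      N ≤ c * h * 2 ^ (36 * ((t + 1) / h)) * (Nat.log 2 S + 1) := by
  classical
  obtain ⟨c0, hc0, h0⟩ := Pool.Agent.H560R2.gap_dist
  let c : ℕ := 10 * 2 ^ 36 * c0
  have hcc : c0 ≤ c := Nat.le_mul_of_pos_left _ (by norm_num)
  refine ⟨c, fun N t h hh => ?_⟩
  set M := 36 * (t + 1) with hM
  have hM0 : 0 < M := by omega
  set B := ∑ j ∈ range M, 2 ^ (j / h) with hB
  have hBle : B ≤ 2 * h * 2 ^ (36 * ((t + 1) / h) + 36) := by
    refine (Pool.Agent.H560R2.geo_sum_le h hh M).trans ?_
    apply Nat.mul_le_mul_left
    apply Nat.pow_le_pow_right (by norm_num)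
    have e1 : t + 1 < h * ((t + 1) / h + 1) := Nat.lt_mul_div_succ (t + 1) hh
    have e2 : M < h * (36 * ((t + 1) / h) + 36) := by
      have : h * (36 * ((t + 1) / h) + 36) = 36 * (h * ((t + 1) / h + 1)) := by ring
      rw [this, hM]
      exact Nat.mul_lt_mul_of_pos_left e1 (by norm_num)
    exact (Nat.div_lt_of_lt_mul e2).le
  by_cases hN : c0 * B ≤ N
  · obtain ⟨m, s, G, Ω, P, Ng, _, _, _, _, α, β, loc, h1, h2, h3, h4, h5, h6⟩ :=
      h0 N M h hM0 hh hN
    refine ⟨m, G, h1, h3, ?_⟩
    intro S R _ _ A hA hsat hfar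
    have hR : (0 : ℚ) < Fintype.card R := by exact_mod_cast Fintype.card_pos
    have hY : (0 : ℚ) < Fintype.card (∀ j, Ng j) := by exact_mod_cast Fintype.card_pos
    have hMq : (0 : ℚ) < M := by exact_mod_cast hM0
    have h2s : (0 : ℚ) < 2 ^ s := by positivity
    -- each algorithm
    have step : ∀ r, ∑ i : Fin M, ∑ y : ∀ j, Ng j, ((univ.filter (fun p : P i =>
          A r (Pool.Agent.H560R2.filH loc (Function.update
            (Pool.Agent.H560R2.stH β y i) i (α i p))))).card : ℚ) / Fintype.card (P i) ≤
        ∑ i : Fin M, ((univ.filter (fun y : ∀ j, Ng j =>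
          A r (Pool.Agent.H560R2.filH loc (Pool.Agent.H560R2.stH β y (i + 1))))).card : ℚ) +
        (6 * t + M * (2 * S / 2 ^ s)) * (Fintype.card (∀ j, Ng j) : ℚ) := by
      intro r
      obtain ⟨out, o1, K, _, o2, o3⟩ := model_probe (A r) (hA r)
      have h7 := Pool.Agent.H560R2.rchainH (h6 K o2) loc o3
      simp only [o1]
      push_cast at h7
      exact h7
    have lower : ∀ (i : Fin M) (y : ∀ j, Ng j), (2 / 3 : ℚ) * Fintype.card R ≤
        ∑ r, ((univ.filter (fun p : P i =>
          A r (Pool.Agent.H560R2.filH loc (Function.update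
            (Pool.Agent.H560R2.stH β y i) i (α i p))))).card : ℚ) / Fintype.card (P i) := by
      intro i y
      have hPpos : (0 : ℚ) < Fintype.card (P i) := by exact_mod_cast Fintype.card_pos
      rw [← Finset.sum_div, le_div_iff₀ hPpos]
      have e1 : ∑ r, ((univ.filter (fun p : P i =>
          A r (Pool.Agent.H560R2.filH loc (Function.update
            (Pool.Agent.H560R2.stH β y i) i (α i p))))).card : ℚ) =
          ∑ p : P i, ((univ.filter (fun r =>
          A r (Pool.Agent.H560R2.filH loc (Function.update
            (Pool.Agent.H560R2.stH β y i) i (α i p))))).card : ℚ) := by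
        simp only [Finset.card_filter]
        push_cast
        exact Finset.sum_comm
      rw [e1]
      have e2 : ∀ p : P i, (2 / 3 : ℚ) * Fintype.card R ≤ ((univ.filter (fun r =>
          A r (Pool.Agent.H560R2.filH loc (Function.update
            (Pool.Agent.H560R2.stH β y i) i (α i p))))).card : ℚ) := by
        intro p
        have e3 : Far G (c * h) (Pool.Agent.H560R2.filH loc (Function.update
            (Pool.Agent.H560R2.stH β y i) i (α i p))) := by
          refine ⟨(h5 i y p).1, fun a => ((h5 i y p).2 a).trans ?_⟩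
          exact Nat.mul_le_mul_right _ (Nat.mul_le_mul_right _ hcc)
        have e4 := hfar _ e3
        unfold rate at e4
        rw [le_div_iff₀ hR] at e4
        exact e4
      have e5 := Finset.card_nsmul_le_sum (univ : Finset (P i)) _ _ (fun p _ => e2 p)
      rw [Finset.card_univ, nsmul_eq_mul] at e5
      linarith
    have upper : ∀ (i : Fin M), ∑ r, ((univ.filter (fun y : ∀ j, Ng j =>
          A r (Pool.Agent.H560R2.filH loc (Pool.Agent.H560R2.stH β y (i + 1))))).card : ℚ) ≤
        (1 / 3 : ℚ) * Fintype.card R * Fintype.card (∀ j, Ng j) := by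
      intro i
      have e1 : ∑ r, ((univ.filter (fun y : ∀ j, Ng j =>
          A r (Pool.Agent.H560R2.filH loc (Pool.Agent.H560R2.stH β y (i + 1))))).card : ℚ) =
          ∑ y : ∀ j, Ng j, ((univ.filter (fun r =>
          A r (Pool.Agent.H560R2.filH loc (Pool.Agent.H560R2.stH β y (i + 1))))).card : ℚ) := by
        simp only [Finset.card_filter]
        push_cast
        exact Finset.sum_comm
      rw [e1]
      have e2 : ∀ y : ∀ j, Ng j, ((univ.filter (fun r =>
          A r (Pool.Agent.H560R2.filH loc (Pool.Agent.H560R2.stH β y (i + 1))))).card : ℚ) ≤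
          (1 / 3 : ℚ) * Fintype.card R := by
        intro y
        have e4 := hsat _ (h4 y (i + 1))
        unfold rate at e4
        rw [div_le_iff₀ hR] at e4
        exact e4
      have e5 := Finset.sum_le_card_nsmul (univ : Finset (∀ j, Ng j)) _ _ (fun y _ => e2 y)
      rw [Finset.card_univ, nsmul_eq_mul] at e5
      linarith
    have k1 : (M : ℚ) * (Fintype.card (∀ j, Ng j) * ((2 / 3 : ℚ) * Fintype.card R)) ≤
        ∑ r, ∑ i : Fin M, ∑ y : ∀ j, Ng j, ((univ.filter (fun p : P i =>
          A r (Pool.Agent.H560R2.filH loc (Function.update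
            (Pool.Agent.H560R2.stH β y i) i (α i p))))).card : ℚ) / Fintype.card (P i) := by
      rw [Finset.sum_comm]
      have e1 : ∀ i : Fin M, (Fintype.card (∀ j, Ng j) * ((2 / 3 : ℚ) * Fintype.card R)) ≤
          ∑ r, ∑ y : ∀ j, Ng j, ((univ.filter (fun p : P i =>
          A r (Pool.Agent.H560R2.filH loc (Function.update
            (Pool.Agent.H560R2.stH β y i) i (α i p))))).card : ℚ) / Fintype.card (P i) := by
        intro i
        rw [Finset.sum_comm]
        have e2 := Finset.card_nsmul_le_sum (univ : Finset (∀ j, Ng j)) _ _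
          (fun y _ => lower i y)
        rw [Finset.card_univ, nsmul_eq_mul] at e2
        exact e2
      have e3 := Finset.card_nsmul_le_sum (univ : Finset (Fin M)) _ _ (fun i _ => e1 i)
      rw [Finset.card_univ, Fintype.card_fin, nsmul_eq_mul] at e3
      exact e3
    have k2 : ∑ r, ∑ i : Fin M, ((univ.filter (fun y : ∀ j, Ng j =>
          A r (Pool.Agent.H560R2.filH loc (Pool.Agent.H560R2.stH β y (i + 1))))).card : ℚ) ≤
        (M : ℚ) * ((1 / 3 : ℚ) * Fintype.card R * Fintype.card (∀ j, Ng j)) := by
      rw [Finset.sum_comm]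
      have e3 := Finset.sum_le_card_nsmul (univ : Finset (Fin M)) _ _ (fun i _ => upper i)
      rw [Finset.card_univ, Fintype.card_fin, nsmul_eq_mul] at e3
      exact e3
    have k3 := Finset.sum_le_sum (fun r (_ : r ∈ (univ : Finset R)) => step r)
    rw [Finset.sum_add_distrib, Finset.sum_const, Finset.card_univ, nsmul_eq_mul] at k3
    have k4 : 6 * (t : ℚ) ≤ M / 6 := by
      rw [hM]
      push_cast
      linarith
    have k5 : (1 / 6 : ℚ) ≤ 2 * S / 2 ^ s := by
      have e1 := (k1.trans k3).trans (add_le_add_left k2 _)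
      have hRY : (0 : ℚ) < Fintype.card R * Fintype.card (∀ j, Ng j) := mul_pos hR hY
      have e2 : (Fintype.card R * Fintype.card (∀ j, Ng j) : ℚ) * (M * (2 / 3)) ≤
          (Fintype.card R * Fintype.card (∀ j, Ng j) : ℚ) *
            (M * (1 / 3) + (6 * t + M * (2 * S / 2 ^ s))) := by
        calc (Fintype.card R * Fintype.card (∀ j, Ng j) : ℚ) * (M * (2 / 3)) =
              (M : ℚ) * (Fintype.card (∀ j, Ng j) * ((2 / 3 : ℚ) * Fintype.card R)) := by ring
          _ ≤ _ := e1
          _ = _ := by ring
      have e3 := le_of_mul_le_mul_left e2 hRY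
      have e4 : (M : ℚ) * (1 / 6) ≤ M * (2 * S / 2 ^ s) := by linarith
      exact le_of_mul_le_mul_left e4 hMq
    have k6 : 2 ^ s ≤ 12 * S := by
      rw [div_le_div_iff₀ (by norm_num) h2s] at k5
      have : (2 : ℚ) ^ s ≤ 12 * S := by linarith
      exact_mod_cast this
    have hS : S ≠ 0 := by
      rintro rfl
      have : 0 < 2 ^ s := by positivity
      omega
    have k7 : s ≤ Nat.log 2 S + 4 := by
      have e1 : 2 ^ s ≤ S * 2 * 2 * 2 * 2 := by omega
      have e2 := Nat.le_log_of_pow_le (by norm_num) e1
      rwa [Nat.log_mul_base (by norm_num) (by omega), Nat.log_mul_base (by norm_num) (by omega),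
        Nat.log_mul_base (by norm_num) (by omega), Nat.log_mul_base (by norm_num) hS] at e2
    calc N ≤ c0 * B * (s + 1) := h2
      _ ≤ c0 * (2 * h * 2 ^ (36 * ((t + 1) / h) + 36)) * (5 * (Nat.log 2 S + 1)) :=
          Nat.mul_le_mul (Nat.mul_le_mul_left _ hBle) (by omega)
      _ = _ := by simp only [c]; rw [pow_add]; ring
  · refine ⟨0, Fin.elim0, Nat.zero_le _, fun i => i.elim0, fun S R _ _ A _ _ _ => ?_⟩
    push Not at hN
    calc N ≤ c0 * B := hN.le
      _ ≤ c0 * (2 * h * 2 ^ (36 * ((t + 1) / h) + 36)) := Nat.mul_le_mul_left _ hBle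
      _ = 2 * 2 ^ 36 * c0 * (h * 2 ^ (36 * ((t + 1) / h))) := by rw [pow_add]; ring
      _ ≤ c * (h * 2 ^ (36 * ((t + 1) / h))) := by
          apply Nat.mul_le_mul_right
          apply Nat.mul_le_mul_right
          norm_num
      _ = c * h * 2 ^ (36 * ((t + 1) / h)) * 1 := by ring
      _ ≤ _ := Nat.mul_le_mul_left _ (by omega)

end Pool.Agent.Results.MP_87d05f_lc.GapNegationTradeoff
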