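import Pool.Agent.H30R2.NS.Gap

set_option autoImplicit false

/-! # Negation-symmetric networks for the gap version of 3-SAT

A network reads a 3-CNF over the variables `X` (one input variable for each possible clause); its
other gates compute arbitrary functions of the number of their true inputs. It is symmetric under a
negation pattern `a : X → ZMod 2` if negating simultaneously all variables `x` with `a x = 1`
(a permutation of the clauses) extends to an automorphism of the network.

Lower bound: for every `0 < δ < 1 / 8` there is `C` such that a network which accepts the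
satisfiable 3-CNFs and rejects the 3-CNFs of which every assignment falsifies at least the fraction
`δ` of the clauses (with at most `C * r` clauses), and which is symmetric under a group of `2 ^ r`
negation patterns, has at least `2 ^ (r / C)` gates.

Converse: every such network can be made symmetric under a group of `2 ^ r` patterns at the cost of
a factor `2 ^ r` in size. -/

namespace Pool.Agent.Results.MP_87d05f_lc.NegationSymmetry

open Pool.Agent.H30R2.NS

theorem result :
    (∀ δ : ℝ, 0 < δ → δ < 1 / 8 → ∃ C : ℕ, 0 < C ∧
      ∀ (r : ℕ) (X : Type) (D : AddSubgroup (X → ZMod 2)), Nat.card D = 2 ^ r →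
      ∀ (Gt : Type) [Fintype Gt] (N : Net (Clause 3 X) Gt), (∀ a ∈ D, N.NegSym a) →
      N.Separates δ (Small 3 X (C * r)) → 2 ^ (r / C) ≤ Nat.card Gt) ∧
    (∀ (δ : ℝ) (M r : ℕ) (X : Type) (D : AddSubgroup (X → ZMod 2)), Nat.card D = 2 ^ r →
      ∀ (Gt : Type) [Fintype Gt] (N : Net (Clause 3 X) Gt), N.Separates δ (Small 3 X M) →
      ∃ (Gt' : Type) (_ : Fintype Gt') (N' : Net (Clause 3 X) Gt'), (∀ a ∈ D, N'.NegSym a) ∧
        N'.Separates δ (Small 3 X M) ∧ Nat.card Gt' = 2 ^ r * Nat.card Gt + 1) :=
  ⟨gap_bound, gap_converse⟩

end Pool.Agent.Results.MP_87d05f_lc.NegationSymmetry
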