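import Mathlib
import Pool.Agent.H542R2.RK.Gap

/-!
Almost all k-CNF formulas of a large constant density are as far from satisfiable as a k-CNF
can be (every assignment falsifies nearly a fraction 2 ^ (-k) of the clauses), but every
refutation whose lines are arbitrary formulas of linear size and whose inferences are arbitrary
sound inferences of bounded fan-in has exponentially many lines.
-/

namespace Pool.Agent.Results.MP_87d05f_lc.RandomGapLines

/-- Propositional formulas over the variables `V`, of unbounded depth. -/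
inductive Fml (V : Type) : Type
  | const : Bool → Fml V
  | var : V → Fml V
  | neg : Fml V → Fml V
  | and : Fml V → Fml V → Fml V
  | or : Fml V → Fml V → Fml V

/-- Truth value of a formula. -/
def Fml.eval {V : Type} (z : V → Bool) : Fml V → Bool
  | .const b => b
  | .var v => z v
  | .neg f => !(f.eval z)
  | .and f g => f.eval z && g.eval z
  | .or f g => f.eval z || g.eval z

/-- Size of a formula: the number of occurrences of variables. -/
def Fml.size {V : Type} : Fml V → ℕ
  | .const _ => 0
  | .var _ => 1
  | .neg f => f.size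
  | .and f g => f.size + g.size
  | .or f g => f.size + g.size

/-- A clause with `k` literals over `N` variables: a sequence of `k` literals; the literal
`(x, s)` says that the variable `x` has the value `s`. -/
abbrev Clause (k N : ℕ) := Fin k → Fin N × Bool

/-- The assignment `z` satisfies the clause. -/
def Clause.Holds {k N : ℕ} (z : Fin N → Bool) (c : Clause k N) : Prop := ∃ i, z (c i).1 = (c i).2

/-- A `k`-CNF formula over `N` variables with `m` clauses. -/
abbrev KCNF (k N m : ℕ) := Fin m → Clause k N

open Classical in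
/-- The number of clauses of `φ` which the assignment `z` falsifies. -/
noncomputable def falsified {k N m : ℕ} (φ : KCNF k N m) (z : Fin N → Bool) : ℕ :=
  (Finset.univ.filter fun i => ¬ (φ i).Holds z).card

/-- A refutation of the CNF `φ` with `S` lines, each of which is a formula of size at most `s`.
Every line is implied by a clause of `φ` or by at most `a` earlier lines, and some line is
unsatisfiable. -/
structure Refutation {k N m : ℕ} (φ : KCNF k N m) (a s S : ℕ) where
  line : Fin S → Fml (Fin N)
  size_le : ∀ j, (line j).size ≤ s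
  sound : ∀ j, (∃ i, ∀ z, (φ i).Holds z → (line j).eval z = true) ∨
    ∃ P : Finset (Fin S), P.card ≤ a ∧ (∀ p ∈ P, p < j) ∧
      ∀ z, (∀ p ∈ P, (line p).eval z = true) → (line j).eval z = true
  final : ∃ j, ∀ z, (line j).eval z = false

open H542 Finset

/-- negation normal form, constants eliminated; the flag `s` is the sign -/
def conv {V : Type} (s : Bool) : Fml V → T V ⊕ Bool
  | .const b => .inr (b == s)
  | .var v => .inl (.lit v s)
  | .neg f => conv (!s) f
  | .and f g => comb s (conv s f) (conv s g)
  | .or f g => comb (!s) (conv s f) (conv s g)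

theorem evs_conv {V : Type} (z : V → Bool) (s : Bool) (f : Fml V) :
    evs z (conv s f) = (f.eval z == s) := by
  induction f generalizing s with
  | const b => rfl
  | var v => rfl
  | neg f ih =>
    simp only [conv, Fml.eval, ih]
    cases f.eval z <;> cases s <;> rfl
  | and f g ihf ihg =>
    simp only [conv, Fml.eval, evs_comb, ihf, ihg]
    cases f.eval z <;> cases g.eval z <;> cases s <;> rfl
  | or f g ihf ihg =>
    simp only [conv, Fml.eval, evs_comb, ihf, ihg]
    cases f.eval z <;> cases g.eval z <;> cases s <;> rfl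

theorem leavess_conv {V : Type} (s : Bool) (f : Fml V) : leavess (conv s f) ≤ f.size := by
  induction f generalizing s with
  | const b => simp [conv, leavess]
  | var v => simp [conv, leavess, T.leaves, Fml.size]
  | neg f ih => exact ih (!s)
  | and f g ihf ihg =>
    exact (leavess_comb _ _ _).trans (add_le_add (ihf s) (ihg s))
  | or f g ihf ihg =>
    exact (leavess_comb _ _ _).trans (add_le_add (ihf s) (ihg s))

theorem short_of_refutation {k N m : ℕ} (φ : KCNF k N m) (a s S : ℕ) (c : ℝ)
    (hS : (S : ℝ) < 2 ^ (c * N)) (h : Nonempty (Refutation φ a s S)) : RK.Short a s c φ := by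
  obtain ⟨π⟩ := h
  refine ⟨S, fun j => conv true (π.line j), hS, fun j =>
    (leavess_conv _ _).trans (π.size_le j), fun j => ?_, ?_⟩
  · rcases π.sound j with ⟨i, hi⟩ | ⟨P, hP1, hP2, hP3⟩
    · left
      refine ⟨i, fun z hz => ?_⟩
      rw [evs_conv, hi z hz]
      rfl
    · right
      refine ⟨P, hP1, hP2, fun z hz => ?_⟩
      have h1 : ∀ p ∈ P, (π.line p).eval z = true := by
        intro p hp
        have := hz p hp
        rw [evs_conv] at this
        simpa using this
      rw [evs_conv, hP3 z h1]
      rfl
  · obtain ⟨j, hj⟩ := π.final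
    refine ⟨j, fun z => ?_⟩
    rw [evs_conv, hj z]
    rfl

theorem falsified_eq {k N m : ℕ} (φ : KCNF k N m) (z : Fin N → Bool) :
    falsified φ z = RK.nf z φ := by
  classical
  unfold falsified RK.nf
  apply congrArg
  apply Finset.filter_congr
  intro i _
  exact not_exists

/-- For every fan-in `a` and constant `C` there is `c > 0` such that for every `ζ > 0`, all large
`K` and all large `k`, with probability tending to 1 as `N → ∞`, a random `k`-CNF `φ` with
`m = K * 2 ^ k * N` clauses over `N` variables has the following two properties: every assignment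
falsifies at least `(1 - ζ) * (K * N) = (1 - ζ) * 2 ^ (-k) * m` of the clauses, but `φ` has no
refutation with fewer than `2 ^ (c * N)` lines of size at most `C * N`. -/
theorem result (a C : ℕ) : ∃ c : ℝ, 0 < c ∧ ∀ ζ : ℝ, 0 < ζ → ∃ K0 : ℕ, ∀ K ≥ K0,
    ∃ k0 : ℕ, ∀ k ≥ k0, ∀ ε : ℝ, 0 < ε → ∃ N0 : ℕ, ∀ N ≥ N0,
      (1 - ε) * Fintype.card (KCNF k N (K * 2 ^ k * N)) ≤
        ({φ : KCNF k N (K * 2 ^ k * N) |
          (∀ z : Fin N → Bool, (1 - ζ) * (K * N) ≤ (falsified φ z : ℝ)) ∧
          ∀ S : ℕ, Nonempty (Refutation φ a (C * N) S) → (2 : ℝ) ^ (c * N) ≤ S}.ncard : ℝ) := by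
  classical
  obtain ⟨c, hc, hmain⟩ := RK.main a C
  refine ⟨c, hc, fun ζ hζ => ?_⟩
  obtain ⟨K0, hK0⟩ := RK.gap ζ hζ
  refine ⟨K0, fun K hK => ?_⟩
  obtain ⟨k0, hk0⟩ := hmain K
  refine ⟨k0, fun k hk ε hε => ?_⟩
  obtain ⟨N1, hN1⟩ := hk0 k hk (ε / 2) (by positivity)
  obtain ⟨N2, hN2⟩ := hK0 K hK k (ε / 2) (by positivity)
  refine ⟨max N1 N2, fun N hN => ?_⟩
  have h1 := hN1 N ((le_max_left _ _).trans hN) (K * 2 ^ k * N) le_rfl
  have h2 := hN2 N ((le_max_right _ _).trans hN)
  rw [Set.ncard_eq_toFinset_card'] at h2 ⊢
  set G := ({φ : KCNF k N (K * 2 ^ k * N) |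
          (∀ z : Fin N → Bool, (1 - ζ) * (K * N) ≤ (falsified φ z : ℝ)) ∧
          ∀ S : ℕ, Nonempty (Refutation φ a (C * N) S) → (2 : ℝ) ^ (c * N) ≤ S}).toFinset with hG
  set B1 := univ.filter fun φ : Fin (K * 2 ^ k * N) → RK.Cl k N => RK.Short a (C * N) c φ with hB1
  set B2 := ({φ : Fin (K * 2 ^ k * N) → RK.Cl k N | ∃ z : Fin N → Bool,
        (RK.nf z φ : ℝ) < (1 - ζ) * (K * N)}).toFinset with hB2
  have hcov : (univ : Finset (KCNF k N (K * 2 ^ k * N))) ⊆ G ∪ (B1 ∪ B2) := by
    intro φ _
    by_cases hφ : φ ∈ G
    · exact mem_union_left _ hφ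
    · apply mem_union_right
      rw [hG, Set.mem_toFinset, Set.mem_ofPred_eq, not_and_or] at hφ
      rcases hφ with hφ | hφ
      · apply mem_union_right
        push Not at hφ
        obtain ⟨z, hz⟩ := hφ
        rw [hB2, Set.mem_toFinset]
        refine ⟨z, ?_⟩
        rw [falsified_eq] at hz
        exact hz
      · apply mem_union_left
        push Not at hφ
        obtain ⟨S, hR, hS⟩ := hφ
        rw [hB1, mem_filter]
        exact ⟨mem_univ _, short_of_refutation φ a (C * N) S c hS hR⟩
  have h3 : (Fintype.card (KCNF k N (K * 2 ^ k * N)) : ℝ) ≤ G.card + (B1.card + B2.card) := by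
    have := (card_le_card hcov).trans ((card_union_le _ _).trans
      (Nat.add_le_add_left (card_union_le B1 B2) _))
    rw [card_univ] at this
    exact_mod_cast this
  linarith

end Pool.Agent.Results.MP_87d05f_lc.RandomGapLines
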